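import Pool.Agent.Helper88.RR.Goals

set_option autoImplicit false

/-!
# Packet GT of project RR (MP_69be96_nt), adapted from `Helper37.PP.GT`
-/

open Finset Filter Topology

open scoped Classical

namespace Pool.Agent.Helper33.RR

open Pool.Agent.Helper88.PP (pr Rg om Sf SS uu vv ee LA VV QQ NN XX cost nc dd)
open Pool.Agent.Helper88.RR

theorem om_nonneg (y z : ℕ) : 0 ≤ om y z := by
  unfold om
  refine Finset.prod_nonneg fun p hp => ?_
  simp only [pr, mem_filter] at hp
  have h1 : (1 : ℝ) ≤ p := by exact_mod_cast hp.2.one_le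
  have h2 : 1 / (p : ℝ) ≤ 1 := by
    rw [div_le_one (by linarith)]
    exact h1
  linarith

theorem VM_nonneg (M z : ℕ) : 0 ≤ VM M z := Finset.sum_nonneg fun _ _ => by positivity

theorem VM_ge_one {M z : ℕ} (hM : 1 ≤ M) (hz : 2 ≤ z) : 1 ≤ VM M z := by
  unfold VM
  have h1 : (1 : ℕ) ∈ SS z (z ^ M) := by
    simp only [SS, mem_filter, mem_Ico]
    refine ⟨⟨le_rfl, ?_⟩, squarefree_one, ?_⟩
    · exact Nat.one_lt_pow (by omega) (by omega)
    · intro p hp hp1
      exact absurd (Nat.dvd_one.mp hp1) hp.ne_one
  have h2 : (1 : ℝ) / (Nat.totient 1 : ℝ) = 1 := by simp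
  calc (1 : ℝ) = (1 : ℝ) / (Nat.totient 1 : ℝ) := h2.symm
    _ ≤ _ := Finset.single_le_sum (f := fun s : ℕ => (1 : ℝ) / (Nat.totient s : ℝ))
      (fun _ _ => by positivity) h1

theorem VV_nonneg (z m m' : ℕ) : 0 ≤ VV z m m' := Finset.sum_nonneg fun _ _ => by positivity

theorem ab_nonneg (m q z r : ℕ) : 0 ≤ ab m q z r := by
  unfold ab
  have := VV_nonneg z m (q * m)
  positivity

theorem sum_ab (m q z : ℕ) (hV : VV z m (q * m) ≠ 0) :
    ∑ s ∈ LA z m (q * m), ab m q z s = 1 := by
  have h1 : ∀ s ∈ LA z m (q * m), ab m q z s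
      = (1 / VV z m (q * m)) * (1 / ((Nat.totient s : ℝ) * ee z s)) := by
    intro s _
    unfold ab
    rw [one_div_mul_one_div, mul_assoc]
  rw [Finset.sum_congr rfl h1, ← Finset.mul_sum]
  show 1 / VV z m (q * m) * VV z m (q * m) = 1
  exact one_div_mul_cancel hV

theorem Db_nonneg (m q M z t : ℕ) : 0 ≤ Db m q M z t :=
  Finset.sum_nonneg fun _ _ => ab_nonneg _ _ _ _

theorem Db_le (m q M z t : ℕ) (hV : VV z m (q * m) ≠ 0) : Db m q M z t ≤ 1 := by
  rw [← sum_ab m q z hV]
  exact Finset.sum_le_sum_of_subset_of_nonneg (Finset.filter_subset _ _)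
    fun _ _ _ => ab_nonneg _ _ _ _

theorem Db_zero (m q M z t : ℕ) (hz : 2 ≤ z) (ht : t + q * m ≤ M) : Db m q M z t = 0 := by
  unfold Db
  rw [Finset.sum_eq_zero]
  intro s hs
  exfalso
  simp only [mem_filter, LA, SS, mem_Ico] at hs
  obtain ⟨⟨⟨⟨h1, h2⟩, -⟩, -⟩, h3⟩ := hs
  have h4 : Nat.log z s < q * m := Nat.log_lt_of_lt_pow (by omega) h2
  unfold ee at h3
  omega

/-- number of labels -/
theorem card_labels {m q M z : ℕ} (hm : 1 ≤ m) (hz : 2 ≤ z) {P : Finset ℕ} {r : P → ℕ}
    (hr : r ∈ TB m q M z P) : nz r ≤ M / m := by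
  simp only [TB, mem_filter, Fintype.mem_piFinset, mem_insert] at hr
  obtain ⟨h1, h2⟩ := hr
  rw [Nat.le_div_iff_mul_le (by omega)]
  refine le_trans ?_ h2
  unfold nz cost
  rw [← smul_eq_mul, ← Finset.sum_const, Finset.sum_filter]
  refine Finset.sum_le_sum fun i _ => ?_
  by_cases hi : r i = 0
  · simp [hi]
  · simp only [ne_eq, hi, not_false_eq_true, if_true, if_false]
    have h4 := (h1 i).resolve_left hi
    simp only [LA, SS, mem_filter, mem_Ico] at h4
    unfold ee
    have h5 : m ≤ Nat.log z (r i) := Nat.le_log_of_pow_le (by omega) h4.2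
    omega

theorem prod_labels {m q M z : ℕ} (hz : 2 ≤ z) {P : Finset ℕ} {r : P → ℕ}
    (hr : r ∈ TB m q M z P) : ∏ i, max 1 (r i) ≤ z ^ M := by
  simp only [TB, mem_filter, Fintype.mem_piFinset, mem_insert] at hr
  obtain ⟨-, h2⟩ := hr
  calc ∏ i, max 1 (r i) ≤ ∏ i, z ^ (if r i = 0 then 0 else ee z (r i)) := by
        refine Finset.prod_le_prod' fun i _ => ?_
        by_cases hi : r i = 0
        · simp [hi]
        · simp only [hi, if_false]
          have h3 : r i < z ^ (Nat.log z (r i) + 1) := Nat.lt_pow_succ_log_self (by omega) _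
          unfold ee
          omega
    _ = z ^ (∑ i, (if r i = 0 then 0 else ee z (r i))) := Finset.prod_pow_eq_pow_sum _ _ _
    _ ≤ z ^ M := Nat.pow_le_pow_right (by omega) h2

theorem gg_nonneg {y z k : ℕ} (hk : k ≤ y) : 0 ≤ gg y z k := by
  unfold gg
  refine Finset.prod_nonneg fun p hp => ?_
  simp only [pr, mem_filter, mem_Ioc] at hp
  have h1 : (k : ℝ) ≤ p := by exact_mod_cast (by omega : k ≤ p)
  have h0 : (0 : ℝ) < p := by exact_mod_cast hp.2.pos
  have h2 : (k : ℝ) / p ≤ 1 := by
    rw [div_le_one h0]
    exact h1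
  linarith

theorem gg_succ {y z k : ℕ} (hk : k + 1 ≤ y) : gg y z (k + 1) ≤ om y z * gg y z k := by
  unfold gg om
  rw [← Finset.prod_mul_distrib]
  refine Finset.prod_le_prod (fun p hp => ?_) (fun p hp => ?_)
  · simp only [pr, mem_filter, mem_Ioc] at hp
    have h1 : ((k + 1 : ℕ) : ℝ) ≤ p := by exact_mod_cast (by omega : k + 1 ≤ p)
    have h0 : (0 : ℝ) < p := by exact_mod_cast hp.2.pos
    have h2 : ((k + 1 : ℕ) : ℝ) / p ≤ 1 := by
      rw [div_le_one h0]
      exact h1
    linarith
  · simp only [pr, mem_filter, mem_Ioc] at hp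
    have h0 : (0 : ℝ) < p := by exact_mod_cast hp.2.pos
    have h3 : (1 - 1 / (p : ℝ)) * (1 - (k : ℝ) / p) =
        (1 - ((k + 1 : ℕ) : ℝ) / p) + (k : ℝ) / (p * p) := by
      push_cast
      field_simp
      ring
    rw [h3]
    have : 0 ≤ (k : ℝ) / (p * p) := by positivity
    linarith

theorem gt (hTS : StmtTS) : StmtGT := by
  obtain ⟨c, hc, E0, hE0⟩ := hTS
  refine ⟨c, hc, max E0 16, ?_⟩
  intro E z x y hE hsr b hb m q hm hqm hVV hK P hP hPc h
  have hE1 : E0 ≤ E := (le_max_left _ _).trans hE
  have hE2 : 16 ≤ E := (le_max_right _ _).trans hE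
  set M : ℕ := E / 16 with hM
  have hM1 : 1 ≤ M := by omega
  have hz2 : 2 ≤ z := by
    have h1 := hsr.1
    have h2 : (2 : ℝ) ≤ Real.exp E := by
      have h3 := Real.add_one_le_exp (E : ℝ)
      have h4 : (16 : ℝ) ≤ E := by exact_mod_cast hE2
      linarith
    exact_mod_cast h2.trans h1
  have hV : VV z m (q * m) ≠ 0 := by linarith
  have hVM := VM_ge_one hM1 hz2
  set Th : Finset (P → ℕ) := (TB m q M z P).filter (fun r => r h = 0) with hTh
  set S : Finset ℕ := SS z (z ^ M) with hS
  set co : ℕ → ℝ := fun r => if r = 0 then 1 else - ab m q z r with hco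
  set cc : (P → ℕ) → ℝ := fun r' => Db m q M z (cost z (Function.update r' h 0)) *
    (1 / (VM M z * (Nat.totient (r' h) : ℝ))) * ∏ i ∈ univ.erase h, co (r' i) with hcc
  set T : Finset (P → ℕ) := (Th ×ˢ S).image (fun p => Function.update p.1 h p.2) with hT
  have hinj : Set.InjOn (fun p : (P → ℕ) × ℕ => Function.update p.1 h p.2)
      ((Th ×ˢ S : Finset ((P → ℕ) × ℕ)) : Set ((P → ℕ) × ℕ)) := by
    rintro ⟨r, s⟩ hr ⟨r', s'⟩ hr' heq
    rw [mem_coe, mem_product] at hr hr'
    simp only [hTh, mem_filter] at hr hr'
    simp only at heq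
    have h1 : s = s' := by
      have := congrFun heq h
      simpa using this
    have h2 : r = r' := by
      funext i
      by_cases hi : i = h
      · rw [hi, hr.1.2, hr'.1.2]
      · have := congrFun heq i
        simpa [Function.update_of_ne hi] using this
    rw [h1, h2]
  have hupd0 : ∀ r ∈ Th, ∀ s, Function.update (Function.update r h s) h 0 = r := by
    intro r hr s
    rw [Function.update_idem]
    simp only [hTh, mem_filter] at hr
    rw [← hr.2, Function.update_eq_self]
  have hcardP : P.card ≤ y := by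
    have := Finset.card_le_card hP
    simpa using this
  have hnz_le : ∀ r : P → ℕ, nz r ≤ y := by
    intro r
    unfold nz
    refine (Finset.card_le_univ _).trans ?_
    rw [Fintype.card_coe]
    exact hcardP
  have hnz_succ : ∀ r ∈ Th, ∀ s ∈ S, nz (Function.update r h s) = nz r + 1 := by
    intro r hr s hs
    have hr0 : r h = 0 := by
      simp only [hTh, mem_filter] at hr
      exact hr.2
    have hs0 : s ≠ 0 := by
      simp only [hS, SS, mem_filter, mem_Ico] at hs
      omega
    unfold nz
    have h3 : (univ.filter (fun i => Function.update r h s i ≠ 0))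
        = insert h (univ.filter (fun i => r i ≠ 0)) := by
      ext i
      rw [mem_insert]
      by_cases hih : i = h
      · subst hih
        simp [hs0]
      · simp [Function.update_of_ne hih, hih]
    rw [h3, Finset.card_insert_of_notMem]
    simp [hr0]
  have hTS' := hE0 E z x y hE1 hsr b hb m q (M / m + 1) hm hqm hVV hK P hP hPc T cc {h}
    (by simp) ?_ ?_ ?_ ?_ ?_
  · -- conclusion
    have hGG : ∀ n, GB m q M z y P h n = ∑ r ∈ T, cc r * ∏ i, vv y z (r i) (n + (i : ℕ)) := by
      intro n
      rw [hT, Finset.sum_image hinj, Finset.sum_product]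
      unfold GB
      refine Finset.sum_congr rfl fun r hr => Finset.sum_congr rfl fun s _ => ?_
      have hr0 : r h = 0 := by
        rw [hTh, mem_filter] at hr
        exact hr.2
      simp only [hcc]
      rw [hupd0 r hr s, Function.update_self]
      rw [← Finset.mul_prod_erase univ (fun i : P => vv y z (Function.update r h s i) (n + (i : ℕ)))
        (mem_univ h), Function.update_self]
      rw [← Finset.mul_prod_erase univ (fun i : P => ((if r i = 0 then 1 else - ab m q z (r i)) *
        vv y z (r i) (n + (i : ℕ)))) (mem_univ h)]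
      have e1 : ∏ i ∈ univ.erase h, co (Function.update r h s i)
          = ∏ i ∈ univ.erase h, co (r i) := by
        refine Finset.prod_congr rfl fun i hi => ?_
        rw [Function.update_of_ne (Finset.ne_of_mem_erase hi)]
      have e2 : ∏ i ∈ univ.erase h, vv y z (Function.update r h s i) (n + (i : ℕ))
          = ∏ i ∈ univ.erase h, vv y z (r i) (n + (i : ℕ)) := by
        refine Finset.prod_congr rfl fun i hi => ?_
        rw [Function.update_of_ne (Finset.ne_of_mem_erase hi)]
      rw [e1, e2, hr0]
      have e3 : vv y z 0 (n + (h : ℕ)) = 1 := by simp [vv]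
      rw [e3, Finset.prod_mul_distrib]
      simp only [if_true, one_mul, hco]
      ring
    have hmain : ∑ r ∈ T, cc r ^ 2 *
        (gg y z (nz r) * ∏ i, (if r i = 0 then 1 else (Nat.totient (r i) : ℝ))) ≤ om y z *
        ∑ r ∈ (TB m q M z P).filter (fun r => M < cost z r + q * m), wb m q y z r := by
      rw [hT, Finset.sum_image hinj, Finset.sum_product]
      have hterm : ∀ r ∈ Th, ∀ s ∈ S, cc (Function.update r h s) ^ 2 *
          (gg y z (nz (Function.update r h s)) * ∏ i, (if Function.update r h s i = 0 then 1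
            else (Nat.totient (Function.update r h s i) : ℝ))) =
          (Db m q M z (cost z r) ^ 2 * (gg y z (nz r + 1) * ∏ i : P,
            (if r i = 0 then 1 else ab m q z (r i) ^ 2 * (Nat.totient (r i) : ℝ)))) *
          ((1 / VM M z) ^ 2 * (1 / (Nat.totient s : ℝ))) := by
        intro r hr s hs
        have hr0 : r h = 0 := by
          simp only [hTh, mem_filter] at hr
          exact hr.2
        have hs0 : s ≠ 0 := by
          simp only [hS, SS, mem_filter, mem_Ico] at hs
          omega
        have hs1 : (Nat.totient s : ℝ) ≠ 0 := by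
          have : 0 < Nat.totient s := Nat.totient_pos.mpr (Nat.pos_of_ne_zero hs0)
          exact_mod_cast this.ne'
        rw [hnz_succ r hr s hs]
        simp only [hcc]
        rw [hupd0 r hr s, Function.update_self]
        rw [← Finset.mul_prod_erase univ (fun i : P => (if Function.update r h s i = 0 then (1 : ℝ)
            else (Nat.totient (Function.update r h s i) : ℝ)))
          (mem_univ h), Function.update_self, if_neg hs0]
        rw [← Finset.mul_prod_erase univ (fun i : P => (if r i = 0 then (1 : ℝ) else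
          ab m q z (r i) ^ 2 * (Nat.totient (r i) : ℝ))) (mem_univ h)]
        have e1 : ∏ i ∈ univ.erase h, co (Function.update r h s i)
            = ∏ i ∈ univ.erase h, co (r i) := by
          refine Finset.prod_congr rfl fun i hi => ?_
          rw [Function.update_of_ne (Finset.ne_of_mem_erase hi)]
        have e2 : ∏ i ∈ univ.erase h, (if Function.update r h s i = 0 then (1 : ℝ)
            else (Nat.totient (Function.update r h s i) : ℝ))
            = ∏ i ∈ univ.erase h, (if r i = 0 then (1 : ℝ)
            else (Nat.totient (r i) : ℝ)) := by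
          refine Finset.prod_congr rfl fun i hi => ?_
          rw [Function.update_of_ne (Finset.ne_of_mem_erase hi)]
        have e3 : (∏ i ∈ univ.erase h, co (r i)) ^ 2 * ∏ i ∈ univ.erase h,
            (if r i = 0 then (1 : ℝ) else (Nat.totient (r i) : ℝ))
            = ∏ i ∈ univ.erase h, (if r i = 0 then (1 : ℝ) else
              ab m q z (r i) ^ 2 * (Nat.totient (r i) : ℝ)) := by
          rw [← Finset.prod_pow, ← Finset.prod_mul_distrib]
          refine Finset.prod_congr rfl fun i _ => ?_
          simp only [hco]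
          split_ifs <;> ring
        rw [e1, e2, ← e3, hr0]
        simp only [if_true, one_mul]
        have hVM0 : VM M z ≠ 0 := by linarith
        field_simp
      rw [Finset.sum_congr rfl fun r hr => Finset.sum_congr rfl fun s hs => hterm r hr s hs]
      rw [Finset.sum_congr rfl fun r _ => (Finset.mul_sum _ _ _).symm, ← Finset.sum_mul,
        ← Finset.mul_sum]
      have e6 : (1 / VM M z) ^ 2 * ∑ s ∈ S, 1 / (Nat.totient s : ℝ) ≤ 1 := by
        have e7 : (1 / VM M z) ^ 2 * ∑ s ∈ S, 1 / (Nat.totient s : ℝ) = 1 / VM M z := by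
          show (1 / VM M z) ^ 2 * VM M z = _
          have hVM0 : VM M z ≠ 0 := by linarith
          field_simp
        rw [e7, div_le_one (by linarith)]
        exact hVM
      have hprod : ∀ r : P → ℕ, 0 ≤ ∏ i : P,
            (if r i = 0 then 1 else ab m q z (r i) ^ 2 * (Nat.totient (r i) : ℝ)) := by
        intro r
        refine Finset.prod_nonneg fun i _ => ?_
        split_ifs <;> positivity
      have hwb : ∀ r : P → ℕ, 0 ≤ wb m q y z r := by
        intro r
        unfold wb
        exact mul_nonneg (gg_nonneg (hnz_le r)) (hprod r)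
      have hlt : ∀ r ∈ Th, nz r + 1 ≤ y := by
        intro r hr
        have hs1 : (1 : ℕ) ∈ S := by
          simp only [hS, SS, mem_filter, mem_Ico]
          refine ⟨⟨le_rfl, Nat.one_lt_pow (by omega) (by omega)⟩, squarefree_one, ?_⟩
          intro p hp hp1
          exact absurd (Nat.dvd_one.mp hp1) hp.ne_one
        rw [← hnz_succ r hr 1 hs1]
        exact hnz_le _
      have e7 : ∑ r ∈ Th, Db m q M z (cost z r) ^ 2 * (gg y z (nz r + 1) * ∏ i : P,
            (if r i = 0 then 1 else ab m q z (r i) ^ 2 * (Nat.totient (r i) : ℝ))) ≤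
          om y z * ∑ r ∈ (TB m q M z P).filter (fun r => M < cost z r + q * m),
            wb m q y z r := by
        rw [Finset.mul_sum]
        conv_rhs => rw [Finset.sum_filter]
        have hstep : ∀ r ∈ Th, Db m q M z (cost z r) ^ 2 * (gg y z (nz r + 1) * ∏ i : P,
            (if r i = 0 then 1 else ab m q z (r i) ^ 2 * (Nat.totient (r i) : ℝ))) ≤
            (if M < cost z r + q * m then om y z * wb m q y z r else 0) := by
          intro r hr
          split_ifs with hcost
          · have h1 := Db_le m q M z (cost z r) hV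
            have h2 := Db_nonneg m q M z (cost z r)
            have h3 : Db m q M z (cost z r) ^ 2 ≤ 1 := pow_le_one₀ h2 h1
            have h4 : 0 ≤ gg y z (nz r + 1) * ∏ i : P,
              (if r i = 0 then 1 else ab m q z (r i) ^ 2 * (Nat.totient (r i) : ℝ)) :=
              mul_nonneg (gg_nonneg (hlt r hr)) (hprod r)
            calc _ ≤ 1 * _ := mul_le_mul_of_nonneg_right h3 h4
              _ = _ := one_mul _
              _ ≤ (om y z * gg y z (nz r)) * ∏ i : P,
                  (if r i = 0 then 1 else ab m q z (r i) ^ 2 * (Nat.totient (r i) : ℝ)) :=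
                mul_le_mul_of_nonneg_right (gg_succ (hlt r hr)) (hprod r)
              _ = _ := by
                unfold wb
                rw [mul_assoc]
          · rw [Db_zero m q M z (cost z r) hz2 (by omega)]
            simp
        refine (Finset.sum_le_sum hstep).trans ?_
        refine Finset.sum_le_sum_of_subset_of_nonneg (Finset.filter_subset _ _) fun r _ _ => ?_
        split_ifs
        · exact mul_nonneg (om_nonneg y z) (hwb r)
        · exact le_rfl
      have h0 : 0 ≤ ∑ r ∈ Th, Db m q M z (cost z r) ^ 2 * (gg y z (nz r + 1) * ∏ i : P,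
            (if r i = 0 then 1 else ab m q z (r i) ^ 2 * (Nat.totient (r i) : ℝ))) :=
        Finset.sum_nonneg fun r hr =>
          mul_nonneg (sq_nonneg _) (mul_nonneg (gg_nonneg (hlt r hr)) (hprod r))
      calc _ ≤ (∑ r ∈ Th, Db m q M z (cost z r) ^ 2 * (gg y z (nz r + 1) * ∏ i : P,
            (if r i = 0 then 1 else ab m q z (r i) ^ 2 * (Nat.totient (r i) : ℝ)))) * 1 :=
            mul_le_mul_of_nonneg_left e6 h0
        _ = _ := mul_one _
        _ ≤ _ := e7
    have hXX : 0 ≤ XX x := by
      unfold XX
      positivity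
    have h1 := (abs_le.mp hTS').2
    rw [Finset.card_singleton, pow_one] at h1
    rw [Finset.sum_congr rfl fun n _ => by rw [hGG n]]
    have h2 := mul_le_mul_of_nonneg_left hmain hXX
    calc _ ≤ XX x * ∑ r ∈ T, cc r ^ 2 *
          (gg y z (nz r) * ∏ i, (if r i = 0 then 1 else (Nat.totient (r i) : ℝ)))
          + Real.exp (-(c * E)) * om y z * XX x := by
          linarith
      _ ≤ _ := by
          rw [mul_add]
          have e8 : XX x * om y z * Real.exp (-(c * E)) = Real.exp (-(c * E)) * om y z * XX x := by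
            ring
          rw [e8, mul_assoc (XX x) (om y z)]
          linarith
  · intro r' hr' i hi
    rw [hT, mem_image] at hr'
    obtain ⟨⟨r, s⟩, hrs, rfl⟩ := hr'
    rw [mem_product] at hrs
    have hi' : i ≠ h := by simpa using hi
    simp only
    rw [Function.update_of_ne hi']
    have h1 := hrs.1
    simp only [hTh, TB, mem_filter, Fintype.mem_piFinset, mem_insert] at h1
    exact h1.1.1 i
  · intro r' hr' i hi
    rw [hT, mem_image] at hr'
    obtain ⟨⟨r, s⟩, hrs, rfl⟩ := hr'
    rw [mem_product] at hrs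
    have hi' : i = h := by simpa using hi
    subst hi'
    simp only
    rw [Function.update_self]
    exact hrs.2
  · intro r' hr'
    rw [hT, mem_image] at hr'
    obtain ⟨⟨r, s⟩, hrs, rfl⟩ := hr'
    rw [mem_product] at hrs
    have h1 := hrs.1
    simp only
    rw [hnz_succ r hrs.1 s hrs.2]
    simp only [hTh, mem_filter] at h1
    have h2 := card_labels hm hz2 h1.1
    omega
  · intro r' hr'
    rw [hT, mem_image] at hr'
    obtain ⟨⟨r, s⟩, hrs, rfl⟩ := hr'
    rw [mem_product] at hrs
    have h1 := hrs.1
    simp only [hTh, mem_filter] at h1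
    have h2 := prod_labels hz2 h1.1
    have hs := hrs.2
    simp only [hS, SS, mem_filter, mem_Ico] at hs
    simp only
    rw [← Finset.mul_prod_erase univ (fun i : P => max 1 (Function.update r h s i)) (mem_univ h),
      Function.update_self]
    rw [← Finset.mul_prod_erase univ (fun i : P => max 1 (r i)) (mem_univ h)] at h2
    have e1 : ∏ i ∈ univ.erase h, max 1 (Function.update r h s i)
        = ∏ i ∈ univ.erase h, max 1 (r i) := by
      refine Finset.prod_congr rfl fun i hi => ?_
      rw [Function.update_of_ne (Finset.ne_of_mem_erase hi)]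
    rw [e1, h1.2] at *
    simp only [Nat.max_eq_left (Nat.zero_le 1), one_mul] at h2
    change _ ≤ z ^ (2 * M)
    rw [two_mul, pow_add]
    exact Nat.mul_le_mul (by omega) h2
  · intro r' hr'
    rw [hT, mem_image] at hr'
    obtain ⟨⟨r, s⟩, hrs, rfl⟩ := hr'
    rw [mem_product] at hrs
    have h1 := hrs.1
    simp only [hcc]
    rw [hupd0 r hrs.1 s]
    rw [← Finset.mul_prod_erase univ (fun i : P => if i ∈ ({h} : Finset P) then
      1 / (VM M z * (Nat.totient (Function.update r h s i) : ℝ)) else
      if Function.update r h s i = 0 then 1 else ab m q z (Function.update r h s i)) (mem_univ h)]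
    rw [Function.update_self, if_pos (by simp), abs_mul, abs_mul,
      abs_of_nonneg (Db_nonneg m q M z _), Finset.abs_prod]
    have h2 : 0 ≤ 1 / (VM M z * (Nat.totient s : ℝ)) := by
      have := VM_nonneg M z
      positivity
    rw [abs_of_nonneg h2]
    have e1 : ∏ i ∈ univ.erase h, |co (Function.update r h s i)| =
        ∏ i ∈ univ.erase h, (if i ∈ ({h} : Finset P) then
          1 / (VM M z * (Nat.totient (Function.update r h s i) : ℝ)) else
          if Function.update r h s i = 0 then 1 else ab m q z (Function.update r h s i)) := by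
      refine Finset.prod_congr rfl fun i hi => ?_
      rw [if_neg (by simpa using Finset.ne_of_mem_erase hi)]
      simp only [hco]
      split_ifs
      · simp
      · rw [abs_neg, abs_of_nonneg (ab_nonneg _ _ _ _)]
    rw [e1]
    refine mul_le_mul_of_nonneg_right ?_ ?_
    · calc _ ≤ 1 * (1 / (VM M z * (Nat.totient s : ℝ))) :=
            mul_le_mul_of_nonneg_right (Db_le m q M z _ hV) h2
        _ = _ := one_mul _
    · rw [← e1]
      exact Finset.prod_nonneg fun _ _ => abs_nonneg _

end Pool.Agent.Helper33.RR
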